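import Pool.Agent.J4H4.NG.Stm
set_option autoImplicit false

/-! Project NG, piece (NS): the noise. -/

namespace Pool.Agent.J4H75.NG

open Finset
open Pool.Agent.J4H4.NG

lemma log_low {x : ℝ} (hx : 0 < x) (hx3 : x ≤ 3) : |x - 1| / 3 ≤ |Real.log x| := by
  rcases le_or_gt 1 x with h | h
  · have h1 := Real.one_sub_inv_le_log_of_pos hx
    rw [abs_of_nonneg (by linarith), abs_of_nonneg (Real.log_nonneg h)]
    refine le_trans ?_ h1
    have h2 : 1 - x⁻¹ = (x - 1) / x := by field_simp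
    rw [h2]
    exact div_le_div_of_nonneg_left (by linarith) hx hx3
  · have h1 := Real.log_le_sub_one_of_pos hx
    rw [abs_of_neg (by linarith), abs_of_neg (Real.log_neg hx h)]
    linarith

lemma sum_tele {M : ℝ} (hM : 0 < M) (n : ℕ) : ∑ k ∈ range n, 1 / (M + (k + 1 : ℕ)) ^ 2 ≤ 1 / M - 1 / (M + n) := by
  induction n with
  | zero => simp
  | succ n ih =>
    rw [Finset.sum_range_succ]
    have hn : (0 : ℝ) ≤ n := Nat.cast_nonneg n
    have h1 : 1 / (M + (n + 1 : ℕ)) ^ 2 ≤ 1 / (M + n) - 1 / (M + (n + 1 : ℕ)) := by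
      push_cast
      rw [div_sub_div _ _ (by positivity) (by positivity), div_le_div_iff₀ (by positivity) (by positivity)]
      nlinarith
    linarith

lemma sum_far {M : ℝ} (hM : 0 < M) (S : Finset ℕ) (hS : ∀ k ∈ S, 1 ≤ k) : ∑ k ∈ S, 1 / (M + k) ^ 2 ≤ 1 / M := by
  have h1 : S ⊆ (range (S.sup id + 1)).image (fun k => k + 1) := by
    intro k hk
    rw [Finset.mem_image]
    have h2 : k ≤ S.sup id := Finset.le_sup (f := id) hk
    have h3 := hS k hk
    exact ⟨k - 1, Finset.mem_range.2 (by omega), by omega⟩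
  refine (Finset.sum_le_sum_of_subset_of_nonneg h1 fun k _ _ => by positivity).trans ?_
  rw [Finset.sum_image (fun a _ b _ h => by simpa using h)]
  refine (sum_tele hM _).trans ?_
  have : 0 ≤ 1 / (M + ((S.sup id + 1 : ℕ) : ℝ)) := by positivity
  linarith

/-- the amplitudes -/
lemma amp_sq {a lam : ℝ} (ha : 0 < a) {k : ℕ} (hk : 1 ≤ k) :
    (amp a lam k) ^ 2 ≤ 4 * Real.exp (2 / a) * Real.exp (-(2 * lam)) * (1 / (Real.exp lam + k) ^ 2) := by
  have hk0 : (0 : ℝ) < k := by exact_mod_cast hk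
  obtain ⟨x, hx⟩ : ∃ x, x = Real.log k - lam := ⟨_, rfl⟩
  have hkx : (k : ℝ) = Real.exp (lam + x) := by
    rw [hx, add_sub_cancel, Real.exp_log hk0]
  have h1 : (amp a lam k) ^ 2 = Real.exp (-(4 * lam) - 4 * x - 2 * a * x ^ 2) := by
    unfold amp
    rw [← hx, mul_pow, ← Real.exp_nat_mul, hkx, ← Real.exp_nat_mul, ← Real.exp_neg, ← Real.exp_nat_mul, ← Real.exp_add]
    congr 1
    push_cast
    ring
  have h2 : -(2 * a * x ^ 2) ≤ 2 / a - 4 * |x| := by
    have h3 : 0 ≤ 2 * a * (|x| - 1 / a) ^ 2 := by positivity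
    have h4 : 2 * a * (|x| - 1 / a) ^ 2 = 2 * a * x ^ 2 - 4 * |x| + 2 / a := by
      rw [sub_sq, sq_abs]
      field_simp
      ring
    linarith
  rw [h1, hkx]
  have h3 : Real.exp lam + Real.exp (lam + x) ≤ 2 * Real.exp (lam + max x 0) := by
    have h4 : Real.exp lam ≤ Real.exp (lam + max x 0) := Real.exp_le_exp.2 (by linarith [le_max_right x 0])
    have h5 : Real.exp (lam + x) ≤ Real.exp (lam + max x 0) := Real.exp_le_exp.2 (by linarith [le_max_left x 0])
    linarith
  have h4 : (Real.exp lam + Real.exp (lam + x)) ^ 2 ≤ 4 * Real.exp (2 * lam + 2 * max x 0) := by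
    calc (Real.exp lam + Real.exp (lam + x)) ^ 2 ≤ (2 * Real.exp (lam + max x 0)) ^ 2 :=
          pow_le_pow_left₀ (by positivity) h3 2
      _ = 4 * Real.exp (2 * lam + 2 * max x 0) := by
          rw [mul_pow, ← Real.exp_nat_mul]
          norm_num
          ring_nf
  rw [mul_one_div, le_div_iff₀ (by positivity)]
  calc Real.exp (-(4 * lam) - 4 * x - 2 * a * x ^ 2) * (Real.exp lam + Real.exp (lam + x)) ^ 2
      ≤ Real.exp (-(4 * lam) - 4 * x - 2 * a * x ^ 2) * (4 * Real.exp (2 * lam + 2 * max x 0)) :=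
        mul_le_mul_of_nonneg_left h4 (Real.exp_pos _).le
    _ = 4 * Real.exp (-(4 * lam) - 4 * x - 2 * a * x ^ 2 + (2 * lam + 2 * max x 0)) := by
        rw [Real.exp_add (-(4 * lam) - 4 * x - 2 * a * x ^ 2) (2 * lam + 2 * max x 0)]
        ring
    _ ≤ 4 * Real.exp (2 / a + -(2 * lam)) := by
        apply mul_le_mul_of_nonneg_left _ (by norm_num)
        apply Real.exp_le_exp.2
        rcases le_or_gt 0 x with h5 | h5
        · rw [max_eq_left h5]
          rw [abs_of_nonneg h5] at h2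
          linarith
        · rw [max_eq_right h5.le]
          rw [abs_of_neg h5] at h2
          linarith
    _ = _ := by
        rw [Real.exp_add (2 / a) (-(2 * lam))]
        ring

theorem t_NS : S_RC → S_NS := by
  intro hRC a ε ha hε
  have hsum : Summable fun j : ℤ => 1 / (1 + (j : ℝ) ^ 2) := by
    have h1 : Summable fun j : ℤ => 1 / (j : ℝ) ^ 2 := Real.summable_one_div_int_pow.2 (by norm_num)
    have h2 : Summable fun j : ℤ => if j = 0 then (1 : ℝ) else 0 := summable_of_ne_finset_zero (s := {0}) (by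
      intro j hj
      rw [if_neg (by simpa using hj)])
    refine Summable.of_nonneg_of_le (fun j => by positivity) (fun j => ?_) (h1.add h2)
    by_cases hj : j = 0
    · rw [if_pos hj, hj]
      norm_num
    · rw [if_neg hj, add_zero]
      have : (0 : ℝ) < (j : ℝ) ^ 2 := by positivity
      apply one_div_le_one_div_of_le this
      linarith
  obtain ⟨C3, hC3⟩ : ∃ C3, C3 = ∑' j : ℤ, 1 / (1 + (j : ℝ) ^ 2) := ⟨_, rfl⟩
  have hC30 : 0 ≤ C3 := by
    rw [hC3]
    exact tsum_nonneg fun j => by positivity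
  obtain ⟨ε1, hε1⟩ : ∃ ε1, ε1 = ε / (2 * 81 * 2304 ^ 2 * (C3 + 1)) := ⟨_, rfl⟩
  have hε10 : 0 < ε1 := by rw [hε1]; positivity
  obtain ⟨z, H0, hH0, hz⟩ := hRC ε1 hε10
  obtain ⟨Lf, hLf⟩ : ∃ Lf, Lf = 512 * Real.exp (2 / a + 3) / ε := ⟨_, rfl⟩
  refine ⟨z, max (max 1 H0) Lf, (le_max_left _ _).trans (le_max_left _ _), ?_⟩
  intro N lam l hl hlN hlam p hp S hS
  have hl1 : 1 ≤ l := (le_max_left _ _).trans ((le_max_left _ _).trans hl)
  have hlH : H0 ≤ l := (le_max_right _ _).trans ((le_max_left _ _).trans hl)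
  have hlf : Lf ≤ l := (le_max_right _ _).trans hl
  have hl0 : 0 < l := by linarith
  have hN1 : (1 : ℝ) ≤ N := by nlinarith
  have hN0 : (0 : ℝ) < N := by linarith
  rw [Finset.mem_filter, Finset.mem_Ioc] at hp
  have hpN : (N : ℝ) < p := by exact_mod_cast hp.1.1
  have hp2N : (p : ℝ) ≤ 2 * N := by exact_mod_cast hp.1.2
  have hp0 : (0 : ℝ) < p := by linarith
  rw [← Finset.sum_filter_add_sum_filter_not S (fun k : ℕ => |Real.log ((k : ℝ) / p)| ≤ 1)]
  -- the far part
  have hfar : ∑ k ∈ S.filter (fun k : ℕ => ¬ |Real.log ((k : ℝ) / p)| ≤ 1), (amp a lam k) ^ 2 * (wt l k p) ^ 2 ≤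
      ε / 2 * l / (N : ℝ) ^ 3 := by
    have h1 : ∀ k ∈ S.filter (fun k : ℕ => ¬ |Real.log ((k : ℝ) / p)| ≤ 1), (amp a lam k) ^ 2 * (wt l k p) ^ 2 ≤
        (64 / l ^ 2 * (4 * Real.exp (2 / a) * Real.exp (-(2 * lam)))) * (1 / (Real.exp lam + k) ^ 2) := by
      intro k hk
      rw [Finset.mem_filter] at hk
      have h2 := amp_sq (lam := lam) ha (hS k hk.1).2.2
      have h3 : 1 < |Real.log ((k : ℝ) / p)| := not_le.1 hk.2
      have h4 : 1 ≤ Real.log ((k : ℝ) / p) ^ 2 := by
        rw [← sq_abs]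
        exact one_le_pow₀ h3.le
      have h5 : wt l k p ≤ 8 / l := by
        refine (min_le_right _ _).trans ?_
        apply div_le_div_of_nonneg_left (by norm_num) hl0
        exact le_mul_of_one_le_right hl0.le h4
      have h6 : 0 ≤ wt l k p := le_min (by positivity) (by positivity)
      have h7 : (wt l k p) ^ 2 ≤ 64 / l ^ 2 := by
        calc (wt l k p) ^ 2 ≤ (8 / l) ^ 2 := pow_le_pow_left₀ h6 h5 2
          _ = 64 / l ^ 2 := by rw [div_pow]; norm_num
      calc (amp a lam k) ^ 2 * (wt l k p) ^ 2 ≤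
            (4 * Real.exp (2 / a) * Real.exp (-(2 * lam)) * (1 / (Real.exp lam + k) ^ 2)) * (64 / l ^ 2) :=
            mul_le_mul h2 h7 (sq_nonneg _) (by positivity)
        _ = _ := by ring
    refine (Finset.sum_le_sum h1).trans ?_
    rw [← Finset.mul_sum]
    have h2 := sum_far (Real.exp_pos lam) (S.filter (fun k : ℕ => ¬ |Real.log ((k : ℝ) / p)| ≤ 1)) fun k hk =>
      (hS k (Finset.mem_filter.1 hk).1).2.2
    have h3 : Real.exp (-(3 * lam)) ≤ Real.exp 3 / (N : ℝ) ^ 3 := by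
      rw [le_div_iff₀ (by positivity)]
      have h4 : (N : ℝ) ^ 3 = Real.exp (3 * Real.log N) := by
        rw [mul_comm, Real.exp_mul, Real.exp_log hN0]
        norm_cast
      rw [h4, ← Real.exp_add]
      apply Real.exp_le_exp.2
      have := (abs_le.1 hlam).2
      linarith
    have h4 : Real.exp (-(2 * lam)) * (1 / Real.exp lam) = Real.exp (-(3 * lam)) := by
      rw [one_div, ← Real.exp_neg, ← Real.exp_add]
      congr 1
      ring
    calc (64 / l ^ 2 * (4 * Real.exp (2 / a) * Real.exp (-(2 * lam)))) *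
          ∑ k ∈ S.filter (fun k : ℕ => ¬ |Real.log ((k : ℝ) / p)| ≤ 1), 1 / (Real.exp lam + k) ^ 2
        ≤ (64 / l ^ 2 * (4 * Real.exp (2 / a) * Real.exp (-(2 * lam)))) * (1 / Real.exp lam) :=
          mul_le_mul_of_nonneg_left h2 (by positivity)
      _ = 256 * Real.exp (2 / a) / l ^ 2 * (Real.exp (-(2 * lam)) * (1 / Real.exp lam)) := by ring
      _ = 256 * Real.exp (2 / a) / l ^ 2 * Real.exp (-(3 * lam)) := by rw [h4]
      _ ≤ 256 * Real.exp (2 / a) / l ^ 2 * (Real.exp 3 / (N : ℝ) ^ 3) := mul_le_mul_of_nonneg_left h3 (by positivity)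
      _ = 256 * Real.exp (2 / a + 3) / l ^ 2 / (N : ℝ) ^ 3 := by rw [Real.exp_add]; ring
      _ ≤ ε / 2 * l / (N : ℝ) ^ 3 := by
          apply div_le_div_of_nonneg_right _ (by positivity)
          rw [div_le_iff₀ (by positivity)]
          rw [hLf, div_le_iff₀ hε] at hlf
          have h5 : l ≤ l * l ^ 2 := le_mul_of_one_le_right hl0.le (one_le_pow₀ hl1)
          have h6 : l * ε ≤ l * l ^ 2 * ε := mul_le_mul_of_nonneg_right h5 hε.le
          nlinarith
  -- the near part
  have hnear : ∑ k ∈ S.filter (fun k : ℕ => |Real.log ((k : ℝ) / p)| ≤ 1), (amp a lam k) ^ 2 * (wt l k p) ^ 2 ≤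
      ε / 2 * l / (N : ℝ) ^ 3 := by
    obtain ⟨Hb, hHb⟩ : ∃ Hb : ℝ, Hb = N / l := ⟨_, rfl⟩
    have hHl : l ≤ Hb := by
      rw [hHb, le_div_iff₀ hl0]
      nlinarith
    have hHb0 : 0 < Hb := by linarith
    obtain ⟨j, hj⟩ : ∃ j : ℕ → ℤ, j = fun k : ℕ => ⌈((k : ℝ) - p) / Hb⌉ - 1 := ⟨_, rfl⟩
    have hj1 : ∀ k : ℕ, (j k : ℝ) * Hb < (k : ℝ) - p := by
      intro k
      rw [hj, ← lt_div_iff₀ hHb0]
      push_cast
      have := Int.ceil_lt_add_one (((k : ℝ) - p) / Hb)
      linarith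
    have hj2 : ∀ k : ℕ, (k : ℝ) - p ≤ ((j k : ℝ) + 1) * Hb := by
      intro k
      rw [hj, ← div_le_iff₀ hHb0]
      push_cast
      have := Int.le_ceil (((k : ℝ) - p) / Hb)
      linarith
    obtain ⟨Sn, hSn⟩ : ∃ Sn, Sn = S.filter (fun k : ℕ => |Real.log ((k : ℝ) / p)| ≤ 1) := ⟨_, rfl⟩
    rw [← hSn]
    have hk1 : ∀ k ∈ Sn, 1 ≤ k ∧ Rough z k ∧ k ≠ p ∧ |Real.log ((k : ℝ) / p)| ≤ 1 := by
      intro k hk
      rw [hSn, Finset.mem_filter] at hk
      exact ⟨(hS k hk.1).2.2, (hS k hk.1).1, (hS k hk.1).2.1, hk.2⟩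
    have hterm : ∀ k ∈ Sn, (amp a lam k) ^ 2 * (wt l k p) ^ 2 ≤ (81 / (N : ℝ) ^ 4 * (2304 ^ 2 * l ^ 2)) * (1 / (1 + (j k : ℝ) ^ 2)) := by
      intro k hk
      obtain ⟨h1, _, h3, h4⟩ := hk1 k hk
      have hk0 : (0 : ℝ) < k := by exact_mod_cast h1
      have hkp : 0 < (k : ℝ) / p := div_pos hk0 hp0
      have he3 : Real.exp 1 < 3 := Real.exp_one_lt_three
      have h5 : (k : ℝ) / p ≤ 3 := by
        have h6 := (abs_le.1 h4).2
        have h7 := (Real.log_le_iff_le_exp hkp).1 h6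
        linarith
      have h6 : (1 : ℝ) / 3 ≤ (k : ℝ) / p := by
        have h7 := (abs_le.1 h4).1
        have h8 := (Real.le_log_iff_exp_le hkp).1 h7
        refine le_trans ?_ h8
        rw [Real.exp_neg, ← one_div]
        exact one_div_le_one_div_of_le (Real.exp_pos 1) he3.le
      have h7 : (N : ℝ) / 3 ≤ k := by
        rw [le_div_iff₀ hp0] at h6
        linarith
      have hamp : (amp a lam k) ^ 2 ≤ 81 / (N : ℝ) ^ 4 := by
        have h8 : amp a lam k ≤ 9 / (N : ℝ) ^ 2 := by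
          unfold amp
          have h9 : Real.exp (-a * (Real.log k - lam) ^ 2) ≤ 1 := by
            apply Real.exp_le_one_iff.2
            have : 0 ≤ a * (Real.log k - lam) ^ 2 := by positivity
            linarith
          have h10 : ((k : ℝ) ^ 2)⁻¹ ≤ 9 / (N : ℝ) ^ 2 := by
            rw [← one_div, div_le_div_iff₀ (by positivity) (by positivity)]
            nlinarith
          calc ((k : ℝ) ^ 2)⁻¹ * Real.exp (-a * (Real.log k - lam) ^ 2) ≤ 9 / (N : ℝ) ^ 2 * 1 :=
                mul_le_mul h10 h9 (Real.exp_pos _).le (by positivity)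
            _ = _ := mul_one _
        have h9 : 0 ≤ amp a lam k := by unfold amp; positivity
        calc (amp a lam k) ^ 2 ≤ (9 / (N : ℝ) ^ 2) ^ 2 := pow_le_pow_left₀ h9 h8 2
          _ = _ := by rw [div_pow]; norm_num; ring_nf
      have hlogs : |(k : ℝ) - p| / (6 * N) ≤ |Real.log ((k : ℝ) / p)| := by
        refine le_trans ?_ (log_low hkp h5)
        have h8 : (k : ℝ) / p - 1 = ((k : ℝ) - p) / p := by field_simp
        rw [h8, abs_div, abs_of_pos hp0, div_div]
        apply div_le_div_of_nonneg_left (abs_nonneg _) (by positivity)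
        linarith
      have hwt : wt l k p ≤ 2304 * l * (1 / (1 + (j k : ℝ) ^ 2)) := by
        obtain ⟨J, hJ⟩ : ∃ J : ℤ, J = j k := ⟨_, rfl⟩
        have hb1 := hj1 k
        have hb2 := hj2 k
        rw [← hJ] at hb1 hb2 ⊢
        -- the bound by the distance
        have hdist : ∀ m : ℝ, 0 < m → m * Hb ≤ |(k : ℝ) - p| → wt l k p ≤ 288 * l / m ^ 2 := by
          intro m hm hmH
          refine (min_le_right _ _).trans ?_
          have h8 : m / (6 * l) ≤ |Real.log ((k : ℝ) / p)| := by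
            refine le_trans ?_ hlogs
            rw [div_le_div_iff₀ (by positivity) (by positivity)]
            have h9 : Hb * l = N := by rw [hHb]; field_simp
            calc m * (6 * N) = m * Hb * (6 * l) := by rw [← h9]; ring
              _ ≤ |(k : ℝ) - p| * (6 * l) := mul_le_mul_of_nonneg_right hmH (by positivity)
          have h9 : m ^ 2 / (36 * l ^ 2) ≤ Real.log ((k : ℝ) / p) ^ 2 := by
            rw [← sq_abs (Real.log _)]
            calc m ^ 2 / (36 * l ^ 2) = (m / (6 * l)) ^ 2 := by rw [div_pow, mul_pow]; norm_num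
              _ ≤ _ := pow_le_pow_left₀ (by positivity) h8 2
          have h10 : 0 < m ^ 2 / (36 * l ^ 2) := by positivity
          calc 8 / (l * Real.log ((k : ℝ) / p) ^ 2) ≤ 8 / (l * (m ^ 2 / (36 * l ^ 2))) := by
                apply div_le_div_of_nonneg_left (by norm_num) (by positivity)
                exact mul_le_mul_of_nonneg_left h9 hl0.le
            _ = 288 * l / m ^ 2 := by
                field_simp
                norm_num
        rcases le_or_gt 1 J with h8 | h8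
        · have hJ1 : (1 : ℝ) ≤ J := by exact_mod_cast h8
          have h9 := hdist J (by linarith) (hb1.le.trans (le_abs_self _))
          refine h9.trans ?_
          rw [mul_one_div, div_le_div_iff₀ (by positivity) (by positivity)]
          have h10 : 1 + (J : ℝ) ^ 2 ≤ 8 * (J : ℝ) ^ 2 := by nlinarith
          calc 288 * l * (1 + (J : ℝ) ^ 2) ≤ 288 * l * (8 * (J : ℝ) ^ 2) :=
                mul_le_mul_of_nonneg_left h10 (by positivity)
            _ = 2304 * l * (J : ℝ) ^ 2 := by ring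
        · rcases le_or_gt J (-2) with h9 | h9
          · have hJ2 : (J : ℝ) ≤ -2 := by exact_mod_cast h9
            have h10 := hdist (-((J : ℝ) + 1)) (by linarith) (by
              refine le_trans ?_ (neg_le_abs _)
              linarith)
            refine h10.trans ?_
            have hJ3 : 0 < ((J : ℝ) + 1) ^ 2 := by
              have : (J : ℝ) + 1 ≠ 0 := by linarith
              positivity
            rw [neg_sq, mul_one_div, div_le_div_iff₀ hJ3 (by positivity)]
            have h11 : 1 + (J : ℝ) ^ 2 ≤ 8 * ((J : ℝ) + 1) ^ 2 := by nlinarith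
            calc 288 * l * (1 + (J : ℝ) ^ 2) ≤ 288 * l * (8 * ((J : ℝ) + 1) ^ 2) :=
                  mul_le_mul_of_nonneg_left h11 (by positivity)
              _ = 2304 * l * ((J : ℝ) + 1) ^ 2 := by ring
          · have h10 : J = 0 ∨ J = -1 := by omega
            have h11 : (1 : ℝ) / 2 ≤ 1 / (1 + (J : ℝ) ^ 2) := by
              rcases h10 with h10 | h10
              · rw [h10]; norm_num
              · rw [h10]; norm_num
            refine (min_le_left _ _).trans ?_
            nlinarith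
      have hwt0 : 0 ≤ wt l k p := le_min (by positivity) (by positivity)
      have hJle : 1 / (1 + (j k : ℝ) ^ 2) ≤ 1 := by
        rw [div_le_one (by positivity)]
        have := sq_nonneg (j k : ℝ)
        linarith
      have hJ0 : 0 ≤ 1 / (1 + (j k : ℝ) ^ 2) := by positivity
      have hwt2 : (wt l k p) ^ 2 ≤ 2304 ^ 2 * l ^ 2 * (1 / (1 + (j k : ℝ) ^ 2)) := by
        calc (wt l k p) ^ 2 ≤ (2304 * l * (1 / (1 + (j k : ℝ) ^ 2))) ^ 2 := pow_le_pow_left₀ hwt0 hwt 2
          _ = 2304 ^ 2 * l ^ 2 * ((1 / (1 + (j k : ℝ) ^ 2)) * (1 / (1 + (j k : ℝ) ^ 2))) := by ring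
          _ ≤ 2304 ^ 2 * l ^ 2 * ((1 / (1 + (j k : ℝ) ^ 2)) * 1) := by gcongr
          _ = _ := by ring
      calc (amp a lam k) ^ 2 * (wt l k p) ^ 2 ≤ (81 / (N : ℝ) ^ 4) * (2304 ^ 2 * l ^ 2 * (1 / (1 + (j k : ℝ) ^ 2))) :=
            mul_le_mul hamp hwt2 (sq_nonneg _) (by positivity)
        _ = _ := by ring
    refine (Finset.sum_le_sum hterm).trans ?_
    rw [← Finset.mul_sum]
    have hblocks : ∑ k ∈ Sn, 1 / (1 + (j k : ℝ) ^ 2) ≤ ε1 * Hb * C3 := by
      rw [← Finset.sum_fiberwise_of_maps_to (g := j) (t := Sn.image j) (fun k hk => Finset.mem_image_of_mem j hk)]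
      have h1 : ∀ J ∈ Sn.image j, ∑ k ∈ Sn.filter (fun k => j k = J), 1 / (1 + (j k : ℝ) ^ 2) ≤ ε1 * Hb * (1 / (1 + (J : ℝ) ^ 2)) := by
        intro J _
        have h2 : ∑ k ∈ Sn.filter (fun k => j k = J), 1 / (1 + (j k : ℝ) ^ 2) =
            ((Sn.filter (fun k => j k = J)).card : ℝ) * (1 / (1 + (J : ℝ) ^ 2)) := by
          rw [← nsmul_eq_mul, ← Finset.sum_const]
          refine Finset.sum_congr rfl fun k hk => ?_
          rw [(Finset.mem_filter.1 hk).2]
        rw [h2]
        apply mul_le_mul_of_nonneg_right _ (by positivity)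
        apply hz ((p : ℝ) + J * Hb) Hb (hlH.trans hHl)
        intro k hk
        rw [Finset.mem_filter] at hk
        have h3 := hj1 k
        have h4 := hj2 k
        rw [hk.2] at h3 h4
        exact ⟨(hk1 k hk.1).2.1, by linarith, by linarith⟩
      refine (Finset.sum_le_sum h1).trans ?_
      rw [← Finset.mul_sum]
      apply mul_le_mul_of_nonneg_left _ (by positivity)
      rw [hC3]
      exact hsum.sum_le_tsum _ fun J _ => by positivity
    calc (81 / (N : ℝ) ^ 4 * (2304 ^ 2 * l ^ 2)) * ∑ k ∈ Sn, 1 / (1 + (j k : ℝ) ^ 2)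
        ≤ (81 / (N : ℝ) ^ 4 * (2304 ^ 2 * l ^ 2)) * (ε1 * Hb * C3) := mul_le_mul_of_nonneg_left hblocks (by positivity)
      _ ≤ (81 / (N : ℝ) ^ 4 * (2304 ^ 2 * l ^ 2)) * (ε1 * Hb * (C3 + 1)) := by gcongr; linarith
      _ = ε / 2 * l / (N : ℝ) ^ 3 := by
          rw [hε1, hHb]
          have : C3 + 1 ≠ 0 := by positivity
          field_simp
  calc _ ≤ ε / 2 * l / (N : ℝ) ^ 3 + ε / 2 * l / (N : ℝ) ^ 3 := add_le_add hnear hfar
    _ = _ := by ring

end Pool.Agent.J4H75.NG
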