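import Pool.Agent.J4H4.NG.Stm

/-! Project NG, piece (N): zeros near the axis, from the good points and Jensen. -/

set_option autoImplicit false

namespace Pool.Agent.J4H75.NG

open Complex MeasureTheory Filter Topology
open Pool.Agent.J4H4.NG

lemma count_boxes (M : ℕ) (f : ℕ → ℝ) (Bad : Finset ℕ) (hBad : Bad ⊆ Finset.range M) (G Bd : ℝ) (hG : 0 ≤ G)
    (h1 : ∀ i ∈ Finset.range M, i ∉ Bad → f i ≤ G) (h2 : ∀ i, i ≤ M → f i ≤ Bd) :
    ∑ i ∈ Finset.range (M + 1), f i ≤ M * G + Bad.card * Bd + Bd := by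
  rw [Finset.sum_range_succ]
  have h3 : ∑ i ∈ Finset.range M \ Bad, f i + ∑ i ∈ Bad, f i = ∑ i ∈ Finset.range M, f i := Finset.sum_sdiff hBad
  have h4 : ∑ i ∈ Finset.range M \ Bad, f i ≤ ((Finset.range M \ Bad).card : ℝ) * G := by
    rw [← nsmul_eq_mul]
    exact Finset.sum_le_card_nsmul _ _ _ fun i hi => h1 i (Finset.mem_sdiff.1 hi).1 (Finset.mem_sdiff.1 hi).2
  have h5 : ((Finset.range M \ Bad).card : ℝ) ≤ M := by
    have h6 : (Finset.range M \ Bad).card ≤ (Finset.range M).card := Finset.card_le_card Finset.sdiff_subset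
    rw [Finset.card_range] at h6
    exact_mod_cast h6
  have h6 : ∑ i ∈ Bad, f i ≤ (Bad.card : ℝ) * Bd := by
    rw [← nsmul_eq_mul]
    exact Finset.sum_le_card_nsmul _ _ _ fun i hi => h2 i (Finset.mem_range.1 (hBad hi)).le
  have h7 : ((Finset.range M \ Bad).card : ℝ) * G ≤ M * G := mul_le_mul_of_nonneg_right h5 hG
  have h8 := h2 M le_rfl
  linarith

lemma card_bad {T h δ : ℝ} (hh : 0 < h) (hδT : 0 ≤ δ * T) (B : Set ℝ) (hB : volume B ≤ ENNReal.ofReal (δ * T)) (Bad : Finset ℕ)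
    (hBad : ∀ i ∈ Bad, Set.Ico (T + i * h) (T + (i + 1) * h) ⊆ B) : (Bad.card : ℝ) * h ≤ δ * T := by
  have hd : (↑Bad : Set ℕ).PairwiseDisjoint (fun i : ℕ => Set.Ico (T + i * h) (T + (i + 1) * h)) := by
    have key : ∀ i j : ℕ, i < j → Disjoint (Set.Ico (T + i * h) (T + (i + 1) * h)) (Set.Ico (T + j * h) (T + (j + 1) * h)) := by
      intro i j hij
      rw [Set.disjoint_left]
      intro x hx hx'
      have h1 : ((i : ℝ) + 1) ≤ j := by exact_mod_cast hij
      have h2 : ((i : ℝ) + 1) * h ≤ j * h := mul_le_mul_of_nonneg_right h1 hh.le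
      linarith [hx.2, hx'.1]
    intro i _ j _ hij
    rcases lt_or_gt_of_ne hij with h1 | h1
    · exact key i j h1
    · exact (key j i h1).symm
  have h1 := measure_biUnion_finset (μ := volume) hd fun i _ => measurableSet_Ico
  have h2 : volume (⋃ i ∈ Bad, Set.Ico (T + i * h) (T + (i + 1) * h)) ≤ volume B :=
    measure_mono (Set.iUnion₂_subset hBad)
  rw [h1] at h2
  have h3 : ∑ i ∈ Bad, volume (Set.Ico (T + (i : ℝ) * h) (T + ((i : ℝ) + 1) * h)) = ENNReal.ofReal ((Bad.card : ℝ) * h) := by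
    have h4 : ∀ i ∈ Bad, volume (Set.Ico (T + (i : ℝ) * h) (T + ((i : ℝ) + 1) * h)) = ENNReal.ofReal h := by
      intro i _
      rw [Real.volume_Ico]
      congr 1
      ring
    rw [Finset.sum_congr rfl h4, Finset.sum_const, nsmul_eq_mul, ENNReal.ofReal_mul (Nat.cast_nonneg _), ENNReal.ofReal_natCast]
  rw [h3] at h2
  exact (ENNReal.ofReal_le_ofReal_iff hδT).1 (h2.trans hB)

theorem t_N : S_N := by
  intro hG hR hB hGB a κ ha hκ hκa
  obtain ⟨μ, hμ⟩ : ∃ μ, μ = κ / (4 * a) := ⟨_, rfl⟩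
  have hμ0 : 0 < μ := by rw [hμ]; positivity
  have hμ4 : μ ≤ 1 / 4 := by
    rw [hμ, div_le_iff₀ (by positivity)]
    linarith
  have hμa : 2 * a * μ = κ / 2 := by
    rw [hμ]
    field_simp
    norm_num
  obtain ⟨δ, hδ⟩ : ∃ δ, δ = κ ^ 2 / (4 * a ^ 2) := ⟨_, rfl⟩
  have hδ0 : 0 < δ := by rw [hδ]; positivity
  obtain ⟨P, T1, hP, hT1, hgood⟩ := hG a μ κ δ ha hμ0 (by linarith) hκ hδ0
  obtain ⟨C, V1, hC, hV1, hrepr⟩ := hR a ha
  obtain ⟨V2, hV2, hbox⟩ := hB a ha
  obtain ⟨T2, hT2, hgbox⟩ := hGB a κ ha hκ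
  have hlog : Tendsto Real.log atTop atTop := Real.tendsto_log_atTop
  have hsmall : ∀ c : ℝ, 0 < c → ∀ᶠ T : ℝ in atTop, Real.log T ≤ c * T := by
    intro c hc
    have h1 := Real.isLittleO_log_id_atTop.bound hc
    filter_upwards [h1, eventually_ge_atTop 1] with T hT hT1
    rw [Real.norm_eq_abs, Real.norm_eq_abs, id, abs_of_nonneg (by linarith : (0 : ℝ) ≤ T)] at hT
    exact (le_abs_self _).trans hT
  have hbig : ∀ c d : ℝ, 0 < c → ∀ᶠ T : ℝ in atTop, d ≤ c * Real.log T := fun c d hc =>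
    (hlog.const_mul_atTop hc).eventually_ge_atTop d
  have hev : ∀ᶠ T : ℝ in atTop, (Real.log T ≤ κ⁻¹ * T ∧ Real.log (2 * Real.pi) / 2 ≤ μ * Real.log T ∧
      2 * a * Real.log P ≤ κ / 2 * Real.log T ∧ C + 1 ≤ T ^ μ ∧ Real.log 2 ≤ 1 / 10 * Real.log T ∧
      Real.log T ≤ 2 / 5 * (κ / a ^ 2) * T) ∧ (T1 ≤ T ∧ V1 ≤ T ∧ V2 ≤ T ∧ T2 ≤ T ∧ 2 ≤ T) := by
    filter_upwards [hsmall κ⁻¹ (by positivity), hbig μ (Real.log (2 * Real.pi) / 2) hμ0, hbig (κ / 2) (2 * a * Real.log P) (by positivity),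
      (tendsto_rpow_atTop hμ0).eventually_ge_atTop (C + 1), hbig (1 / 10) (Real.log 2) (by norm_num),
      hsmall (2 / 5 * (κ / a ^ 2)) (by positivity), eventually_ge_atTop T1, eventually_ge_atTop V1, eventually_ge_atTop V2,
      eventually_ge_atTop T2, eventually_ge_atTop (2 : ℝ)] with T h1 h2 h3 h4 h5 h6 h7 h8 h9 h10 h11
    exact ⟨⟨h1, h2, h3, h4, h5, h6⟩, h7, h8, h9, h10, h11⟩
  obtain ⟨T3, hT3⟩ := eventually_atTop.1 hev
  refine ⟨max 2 T3, le_max_left _ _, ?_⟩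
  intro T hT S hS
  obtain ⟨⟨e1, e2, e3, e4, e5, e6⟩, f1, f2, f3, f4, f5⟩ := hT3 T ((le_max_right _ _).trans hT)
  have hT0 : 0 < T := by linarith
  obtain ⟨L, hL⟩ : ∃ L, L = Real.log T := ⟨_, rfl⟩
  rw [← hL] at e1 e2 e3 e5 e6
  have hL0 : 0 < L := by rw [hL]; exact Real.log_pos (by linarith)
  obtain ⟨h, hh⟩ : ∃ h, h = κ * L := ⟨_, rfl⟩
  have hh0 : 0 < h := by rw [hh]; positivity
  have hhT : h ≤ T := by
    rw [hh]
    calc κ * L ≤ κ * (κ⁻¹ * T) := mul_le_mul_of_nonneg_left e1 hκ.le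
      _ = T := by field_simp
  obtain ⟨lam, hlam⟩ : ∃ lam, lam = (1 / 2 - μ) * L := ⟨_, rfl⟩
  have hgood1 := hgood T f1 lam (by rw [hlam, ← hL]; nlinarith) (by rw [hlam, ← hL])
  rw [← hL, ← hh] at hgood1
  obtain ⟨B, hBdef⟩ : ∃ B, B = {v : ℝ | T ≤ v ∧ v ≤ 2 * T ∧ ∀ b : ℕ, 1 ≤ b → b ≤ P → ∀ u : ℝ, 0 ≤ u → u ≤ h →
    ‖DD a (lam - Real.log b) (v + u)‖ < T ^ (μ - 1)} := ⟨_, rfl⟩
  rw [← hBdef] at hgood1
  obtain ⟨M, hM⟩ : ∃ M, M = ⌊T / h⌋₊ := ⟨_, rfl⟩
  have hMh : (M : ℝ) * h ≤ T := by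
    rw [← le_div_iff₀ hh0, hM]
    exact Nat.floor_le (by positivity)
  classical
  obtain ⟨Bad, hBad⟩ : ∃ Bad, Bad = (Finset.range M).filter (fun i : ℕ => Set.Ico (T + i * h) (T + (i + 1) * h) ⊆ B) := ⟨_, rfl⟩
  have hcard : (Bad.card : ℝ) * h ≤ δ * T := by
    refine card_bad hh0 (by positivity) B hgood1 Bad fun i hi => ?_
    rw [hBad, Finset.mem_filter] at hi
    exact hi.2
  obtain ⟨g, hg⟩ : ∃ g : ℂ → ℕ, g = fun w : ℂ => ⌊(w.im - T) / h⌋₊ := ⟨_, rfl⟩
  have hgM : ∀ w ∈ S, g w ∈ Finset.range (M + 1) := by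
    intro w hw
    rw [Finset.mem_range, Nat.lt_succ_iff, hg, hM]
    apply Nat.floor_mono
    apply div_le_div_of_nonneg_right _ hh0.le
    linarith [(hS w hw).2.2.2]
  have hg1 : ∀ w ∈ S, (g w : ℝ) * h ≤ w.im - T := by
    intro w hw
    rw [← le_div_iff₀ hh0, hg]
    exact Nat.floor_le (div_nonneg (by linarith [(hS w hw).2.2.1]) hh0.le)
  have hg2 : ∀ w ∈ S, w.im - T ≤ ((g w : ℝ) + 1) * h := by
    intro w hw
    rw [← div_le_iff₀ hh0, hg]
    exact (Nat.lt_floor_add_one _).le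
  rw [← Finset.sum_fiberwise_of_maps_to hgM]
  have hmain := count_boxes M (fun i => ∑ w ∈ S.filter (fun w => g w = i), (analyticOrderNatAt (EE a) w : ℝ)) Bad
    (by rw [hBad]; exact Finset.filter_subset _ _) (20 * (κ ^ 2 / a) * L ^ 2) (25 * a * L ^ 2) (by positivity) ?_ ?_
  · refine hmain.trans ?_
    have hm1 : (M : ℝ) * (20 * (κ ^ 2 / a) * L ^ 2) ≤ 20 * (κ / a) * T * L := by
      calc (M : ℝ) * (20 * (κ ^ 2 / a) * L ^ 2) = (M : ℝ) * h * (20 * (κ / a) * L) := by rw [hh]; ring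
        _ ≤ T * (20 * (κ / a) * L) := mul_le_mul_of_nonneg_right hMh (by positivity)
        _ = _ := by ring
    have hm2 : (Bad.card : ℝ) * (25 * a * L ^ 2) ≤ 25 / 4 * (κ / a) * T * L := by
      calc (Bad.card : ℝ) * (25 * a * L ^ 2) = (Bad.card : ℝ) * h * (25 * (a / κ) * L) := by rw [hh]; field_simp
        _ ≤ δ * T * (25 * (a / κ) * L) := mul_le_mul_of_nonneg_right hcard (by positivity)
        _ = _ := by rw [hδ]; field_simp
    have hm3 : 25 * a * L ^ 2 ≤ 10 * (κ / a) * T * L := by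
      calc 25 * a * L ^ 2 = 25 * a * L * L := by ring
        _ ≤ 25 * a * L * (2 / 5 * (κ / a ^ 2) * T) := mul_le_mul_of_nonneg_left e6 (by positivity)
        _ = 10 * (κ / a) * T * L := by field_simp; norm_num
    have hm4 : 0 ≤ (κ / a) * T * L := by positivity
    rw [← hL]
    nlinarith
  · -- good boxes
    intro i hi hiB
    have hiM : i < M := Finset.mem_range.1 hi
    have hnot : ¬ Set.Ico (T + i * h) (T + (i + 1) * h) ⊆ B := by
      intro hc
      exact hiB (by rw [hBad, Finset.mem_filter]; exact ⟨hi, hc⟩)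
    obtain ⟨v, hv, hvB⟩ := Set.not_subset.1 hnot
    have hi1 : ((i : ℝ) + 1) * h ≤ T := by
      refine le_trans ?_ hMh
      apply mul_le_mul_of_nonneg_right _ hh0.le
      exact_mod_cast hiM
    have hi0 : 0 ≤ (i : ℝ) * h := by positivity
    have hvT : T ≤ v := by linarith [hv.1]
    have hv2T : v ≤ 2 * T := by linarith [hv.2]
    rw [hBdef, Set.mem_setOf_eq] at hvB
    push_neg at hvB
    obtain ⟨b, hb1, hbP, u, hu0, huh, hDD⟩ := hvB hvT hv2T
    obtain ⟨v', hv'⟩ : ∃ v', v' = v + u := ⟨_, rfl⟩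
    rw [← hv'] at hDD
    have hv'T : T ≤ v' := by linarith
    have hv'4 : v' ≤ 4 * T := by linarith
    have hv'0 : 0 < v' := by linarith
    obtain ⟨η, hη⟩ : ∃ η, η = 2 * a * (Real.log (v' / (2 * Real.pi)) / 2 - lam + Real.log b) := ⟨_, rfl⟩
    have hb0 : 0 ≤ Real.log b := Real.log_nonneg (by exact_mod_cast hb1)
    have hbP' : Real.log b ≤ Real.log P := Real.log_le_log (by exact_mod_cast hb1) (by exact_mod_cast hbP)
    have hpi : 0 < 2 * Real.pi := by positivity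
    have hlv1 : L - Real.log (2 * Real.pi) ≤ Real.log (v' / (2 * Real.pi)) := by
      rw [Real.log_div hv'0.ne' hpi.ne', hL]
      have := Real.log_le_log hT0 hv'T
      linarith
    have hlv2 : Real.log (v' / (2 * Real.pi)) ≤ L := by
      rw [hL]
      apply Real.log_le_log (by positivity)
      rw [div_le_iff₀ hpi]
      have := Real.pi_gt_three
      nlinarith
    have hη0 : 0 ≤ η := by
      rw [hη]
      apply mul_nonneg (by positivity)
      rw [hlam]
      nlinarith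
    have hη1 : η ≤ h := by
      have h1 : Real.log (v' / (2 * Real.pi)) / 2 - lam + Real.log b ≤ μ * L + Real.log P := by
        rw [hlam]
        linarith
      calc η ≤ 2 * a * (μ * L + Real.log P) := by rw [hη]; exact mul_le_mul_of_nonneg_left h1 (by positivity)
        _ = 2 * a * μ * L + 2 * a * Real.log P := by ring
        _ ≤ κ / 2 * L + κ / 2 * L := by rw [hμa]; linarith
        _ = h := by rw [hh]; ring
    have hη2 : Real.log (v' / (2 * Real.pi)) / 2 - η / (2 * a) = lam - Real.log b := by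
      rw [hη]
      field_simp
      ring
    have hrep := hrepr v' (f2.trans hv'T) η
    rw [hη2] at hrep
    have hlow : T⁻¹ * ‖gam (2 + I * v')‖ ≤ ‖EE a (((3 / 2 + η : ℝ) : ℂ) + I * v')‖ := by
      obtain ⟨E, hE⟩ : ∃ E, E = Real.exp (η ^ 2 / (4 * a)) := ⟨_, rfl⟩
      rw [← hE] at hrep
      have hE1 : 1 ≤ E := by
        rw [hE]
        exact Real.one_le_exp (by positivity)
      obtain ⟨Gm, hGm⟩ : ∃ Gm, Gm = ‖gam (2 + I * v')‖ := ⟨_, rfl⟩
      have hGm0 : 0 ≤ Gm := by rw [hGm]; exact norm_nonneg _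
      rw [← hGm] at hrep ⊢
      have h1 : ‖gam (2 + I * v') * (E : ℂ) * DD a (lam - Real.log b) v'‖ = Gm * E * ‖DD a (lam - Real.log b) v'‖ := by
        rw [norm_mul, norm_mul, ← hGm, Complex.norm_real, Real.norm_eq_abs, abs_of_nonneg (by linarith)]
      have h2 : ‖gam (2 + I * v') * (E : ℂ) * DD a (lam - Real.log b) v'‖ - C / v' * E * Gm ≤ ‖EE a (((3 / 2 + η : ℝ) : ℂ) + I * v')‖ := by
        have h3 := norm_sub_norm_le (gam (2 + I * v') * (E : ℂ) * DD a (lam - Real.log b) v') (EE a (((3 / 2 + η : ℝ) : ℂ) + I * v'))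
        rw [norm_sub_rev] at h3
        linarith
      refine le_trans ?_ h2
      rw [h1]
      have h3 : C / v' ≤ C / T := div_le_div_of_nonneg_left hC.le hT0 hv'T
      have h4 : (C + 1) / T ≤ ‖DD a (lam - Real.log b) v'‖ := by
        refine le_trans ?_ hDD
        rw [Real.rpow_sub_one hT0.ne']
        exact div_le_div_of_nonneg_right e4 hT0.le
      have h5 : T⁻¹ ≤ ‖DD a (lam - Real.log b) v'‖ - C / v' := by
        have h6 : (C + 1) / T = C / T + T⁻¹ := by rw [add_div, one_div]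
        linarith
      have h6 : 0 < T⁻¹ := by positivity
      calc T⁻¹ * Gm ≤ (‖DD a (lam - Real.log b) v'‖ - C / v') * Gm := mul_le_mul_of_nonneg_right h5 hGm0
        _ ≤ (‖DD a (lam - Real.log b) v'‖ - C / v') * Gm * E := le_mul_of_one_le_right (mul_nonneg (by linarith) hGm0) hE1
        _ = _ := by ring
    have hfin := hgbox T v' η f4 hv'T hv'4 hη0 (by rw [← hL, ← hh]; exact hη1) hlow (S.filter (fun w => g w = i)) ?_
    · rw [← hL] at hfin
      exact hfin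
    · intro w hw
      rw [Finset.mem_filter] at hw
      have h1 := hg1 w hw.1
      have h2 := hg2 w hw.1
      rw [hw.2] at h1 h2
      refine ⟨(hS w hw.1).1, (hS w hw.1).2.1, ?_⟩
      rw [mul_assoc, ← hL, ← hh, abs_le]
      have h3 := hv.1
      have h4 := hv.2
      constructor <;> linarith
  · -- all boxes
    intro i hiM
    obtain ⟨v, hv⟩ : ∃ v, v = T + i * h := ⟨_, rfl⟩
    have hi0 : 0 ≤ (i : ℝ) * h := by positivity
    have hiT : (i : ℝ) * h ≤ T := by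
      refine le_trans ?_ hMh
      apply mul_le_mul_of_nonneg_right _ hh0.le
      exact_mod_cast hiM
    have hvT : T ≤ v := by linarith
    have hv2T : v ≤ 2 * T := by linarith
    have hv0 : 0 < v := by linarith
    have hlv1 : L ≤ Real.log v := by
      rw [hL]
      exact Real.log_le_log hT0 hvT
    have hlv2 : Real.log v ≤ 11 / 10 * L := by
      have h1 := Real.log_le_log hv0 hv2T
      rw [Real.log_mul (by norm_num) hT0.ne', ← hL] at h1
      linarith
    have hκL : κ * L ≤ a * Real.log v := mul_le_mul hκa hlv1 hL0.le ha.le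
    have hfin := hbox v (f3.trans hvT) (S.filter (fun w => g w = i)) ?_
    · refine hfin.trans ?_
      have h1 : (Real.log v) ^ 2 ≤ (11 / 10 * L) ^ 2 := pow_le_pow_left₀ (by linarith) hlv2 2
      calc 20 * a * (Real.log v) ^ 2 ≤ 20 * a * (11 / 10 * L) ^ 2 := mul_le_mul_of_nonneg_left h1 (by positivity)
        _ = 121 / 5 * (a * L ^ 2) := by ring
        _ ≤ 25 * (a * L ^ 2) := mul_le_mul_of_nonneg_right (by norm_num) (by positivity)
        _ = _ := by ring
    · intro w hw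
      rw [Finset.mem_filter] at hw
      have h1 := hg1 w hw.1
      have h2 := hg2 w hw.1
      rw [hw.2] at h1 h2
      have h3 := (hS w hw.1).2.1
      rw [← hL] at h3
      refine ⟨(hS w hw.1).1, h3.trans hκL, ?_⟩
      rw [abs_le]
      rw [← hh] at hκL
      constructor <;> linarith

end Pool.Agent.J4H75.NG
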